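import Pool.Agent.Lib.MP_a50f86_an.SC.Exist

open Complex Metric Set Filter Topology InnerProductSpace

namespace Pool.Agent.Lib.MP_a50f86_an.SC

/-- Unit vectors, numbered from `0`. -/
noncomputable def ev (n j : ℕ) : En n := WithLp.toLp 2 fun i => if (i : ℕ) = j then 1 else 0

theorem ev_apply (n j : ℕ) (i : Fin n) : ev n j i = if (i : ℕ) = j then 1 else 0 := rfl

/-- The defining function. -/
noncomputable def rhoS {n : ℕ} (x : En n) : ℝ :=
  (∑ i : Fin n, if (i : ℕ) < 2 then x i ^ 4 else 0)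
    + (∑ i : Fin n, if (i : ℕ) < 2 then 0 else x i ^ 2) ^ 2 / 16 + (∑ i : Fin n, x i ^ 2) / 200 - 1

/-- The domain. -/
def OmS (n : ℕ) : Set (En n) := {x | rhoS x < 0}

theorem contDiff_rhoS {n : ℕ} {m : WithTop ℕ∞} : ContDiff ℝ m (rhoS (n := n)) := by
  have h : ∀ i : Fin n, ContDiff ℝ m (fun x : En n => x i) := fun i =>
    (EuclideanSpace.proj (𝕜 := ℝ) i).contDiff
  have h1 : ContDiff ℝ m (fun x : En n => ∑ i : Fin n, if (i : ℕ) < 2 then x i ^ 4 else 0) := by
    apply ContDiff.sum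
    intro i _
    by_cases hi : (i : ℕ) < 2
    · simp only [hi, if_true]; exact (h i).pow 4
    · simp only [hi, if_false]; exact contDiff_const
  have h2 : ContDiff ℝ m (fun x : En n => ∑ i : Fin n, if (i : ℕ) < 2 then 0 else x i ^ 2) := by
    apply ContDiff.sum
    intro i _
    by_cases hi : (i : ℕ) < 2
    · simp only [hi, if_true]; exact contDiff_const
    · simp only [hi, if_false]; exact (h i).pow 2
  have h3 : ContDiff ℝ m (fun x : En n => ∑ i : Fin n, x i ^ 2) := by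
    apply ContDiff.sum
    intro i _
    exact (h i).pow 2
  unfold rhoS
  exact ((h1.add ((h2.pow 2).div_const 16)).add (h3.div_const 200)).sub contDiff_const

theorem continuous_rhoS {n : ℕ} : Continuous (rhoS (n := n)) :=
  (contDiff_rhoS (m := 0)).continuous

/-- The polynomial. -/
noncomputable def polyS (n : ℕ) : MvPolynomial (Fin n) ℝ :=
  (∑ i : Fin n, if (i : ℕ) < 2 then MvPolynomial.X i ^ 4 else 0)
    + MvPolynomial.C (1 / 16) * (∑ i : Fin n, if (i : ℕ) < 2 then 0 else MvPolynomial.X i ^ 2) ^ 2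
    + MvPolynomial.C (1 / 200) * (∑ i : Fin n, MvPolynomial.X i ^ 2) - 1

theorem eval_polyS {n : ℕ} (x : En n) : MvPolynomial.eval (fun i => x i) (polyS n) = rhoS x := by
  unfold polyS rhoS
  simp only [map_add, map_sub, map_mul, map_pow, map_sum, MvPolynomial.eval_C, MvPolynomial.eval_X,
    map_one, apply_ite (MvPolynomial.eval (fun i => x i)), map_zero]
  ring

theorem isOpen_OmS (n : ℕ) : IsOpen (OmS n) := isOpen_lt continuous_rhoS continuous_const

theorem zero_mem_OmS (n : ℕ) : (0 : En n) ∈ OmS n := by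
  show rhoS (0 : En n) < 0
  simp [rhoS]

theorem strongConvex_rhoS (n : ℕ) : StrongConvexOn univ (1 / 100 : ℝ) (rhoS (n := n)) := by
  rw [strongConvexOn_iff_convex]
  have h4 : ConvexOn ℝ univ (fun t : ℝ => t ^ 4) := Even.convexOn_pow (by decide)
  have h2 : ConvexOn ℝ univ (fun t : ℝ => t ^ 2) := Even.convexOn_pow (by decide)
  have hi4 : ∀ i : Fin n, ConvexOn ℝ univ (fun x : En n => x i ^ 4) := by
    intro i
    have := h4.comp_linearMap ((EuclideanSpace.proj (𝕜 := ℝ) i : En n →L[ℝ] ℝ) : En n →ₗ[ℝ] ℝ)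
    simpa [Function.comp_def] using this
  have hi2 : ∀ i : Fin n, ConvexOn ℝ univ (fun x : En n => x i ^ 2) := by
    intro i
    have := h2.comp_linearMap ((EuclideanSpace.proj (𝕜 := ℝ) i : En n →L[ℝ] ℝ) : En n →ₗ[ℝ] ℝ)
    simpa [Function.comp_def] using this
  have hsum : ∀ (s : Finset (Fin n)) (g : Fin n → En n → ℝ), (∀ i, ConvexOn ℝ univ (g i)) →
      ConvexOn ℝ univ (fun x => ∑ i ∈ s, g i x) := by
    intro s g hg
    induction s using Finset.induction_on with
    | empty => simpa using convexOn_const (0 : ℝ) convex_univ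
    | insert a s ha ih =>
      simp only [Finset.sum_insert ha]
      exact (hg a).add ih
  have hA : ConvexOn ℝ univ (fun x : En n => ∑ i : Fin n, if (i : ℕ) < 2 then x i ^ 4 else 0) := by
    refine hsum _ (fun i x => if (i : ℕ) < 2 then x i ^ 4 else 0) fun i => ?_
    by_cases hi : (i : ℕ) < 2
    · simp only [hi, if_true]; exact hi4 i
    · simp only [hi, if_false]; exact convexOn_const 0 convex_univ
  have hB : ConvexOn ℝ univ (fun x : En n => ∑ i : Fin n, if (i : ℕ) < 2 then 0 else x i ^ 2) := by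
    refine hsum _ (fun i x => if (i : ℕ) < 2 then 0 else x i ^ 2) fun i => ?_
    by_cases hi : (i : ℕ) < 2
    · simp only [hi, if_true]; exact convexOn_const 0 convex_univ
    · simp only [hi, if_false]; exact hi2 i
  have hB2 := hB.pow (fun x _ => Finset.sum_nonneg fun i _ => by
    by_cases hi : (i : ℕ) < 2
    · simp [hi]
    · simp only [hi, if_false]; positivity) 2
  have hB3 : ConvexOn ℝ univ (fun x : En n =>
      (1 / 16 : ℝ) • (∑ i : Fin n, if (i : ℕ) < 2 then 0 else x i ^ 2) ^ 2) :=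
    hB2.smul (by norm_num)
  have hC := (hA.add hB3).add (convexOn_const (-1 : ℝ) convex_univ)
  refine hC.congr ?_
  intro x _
  have hn : ‖x‖ ^ 2 = ∑ i : Fin n, x i ^ 2 := by
    rw [EuclideanSpace.norm_sq_eq]
    simp
  simp only [Pi.add_apply, smul_eq_mul]
  unfold rhoS
  rw [hn]
  ring

theorem convex_OmS (n : ℕ) : Convex ℝ (OmS n) := by
  have h : ConvexOn ℝ univ (rhoS (n := n)) :=
    (strongConvex_rhoS n).convexOn (fun r => by positivity)
  have := h.convex_lt 0
  have e : OmS n = {x | x ∈ univ ∧ rhoS x < 0} := by ext x; simp [OmS]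
  rw [e]
  exact this

theorem nonneg_A {n : ℕ} (x : En n) : 0 ≤ (∑ i : Fin n, if (i : ℕ) < 2 then x i ^ 4 else 0) :=
  Finset.sum_nonneg fun i _ => by
    by_cases hi : (i : ℕ) < 2
    · simp only [hi, if_true]; positivity
    · simp [hi]

theorem bounded_OmS (n : ℕ) : Bornology.IsBounded (OmS n) := by
  rw [isBounded_iff_forall_norm_le]
  refine ⟨20, fun x hx => ?_⟩
  have h : rhoS x < 0 := hx
  have hA := nonneg_A x
  have hB : 0 ≤ (∑ i : Fin n, if (i : ℕ) < 2 then 0 else x i ^ 2) ^ 2 / 16 := by positivity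
  have hn : ‖x‖ ^ 2 = ∑ i : Fin n, x i ^ 2 := by
    rw [EuclideanSpace.norm_sq_eq]
    simp
  unfold rhoS at h
  have h2 : ‖x‖ ^ 2 < 200 := by rw [hn]; linarith
  nlinarith [norm_nonneg x]

theorem rhoS_smul {n : ℕ} (x : En n) (t : ℝ) : rhoS (t • x) =
    ((∑ i : Fin n, if (i : ℕ) < 2 then x i ^ 4 else 0)
      + (∑ i : Fin n, if (i : ℕ) < 2 then 0 else x i ^ 2) ^ 2 / 16) * t ^ 4
      + ((∑ i : Fin n, x i ^ 2) / 200) * t ^ 2 - 1 := by
  have e1 : (∑ i : Fin n, if (i : ℕ) < 2 then (t • x) i ^ 4 else 0) =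
      t ^ 4 * ∑ i : Fin n, (if (i : ℕ) < 2 then x i ^ 4 else 0) := by
    rw [Finset.mul_sum]
    refine Finset.sum_congr rfl fun i _ => ?_
    by_cases hi : (i : ℕ) < 2
    · simp [hi, mul_pow]
    · simp [hi]
  have e2 : (∑ i : Fin n, if (i : ℕ) < 2 then 0 else (t • x) i ^ 2) =
      t ^ 2 * ∑ i : Fin n, (if (i : ℕ) < 2 then 0 else x i ^ 2) := by
    rw [Finset.mul_sum]
    refine Finset.sum_congr rfl fun i _ => ?_
    by_cases hi : (i : ℕ) < 2
    · simp [hi]
    · simp [hi, mul_pow]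
  have e3 : (∑ i : Fin n, (t • x) i ^ 2) = t ^ 2 * ∑ i : Fin n, x i ^ 2 := by
    rw [Finset.mul_sum]
    refine Finset.sum_congr rfl fun i _ => ?_
    simp [mul_pow]
  unfold rhoS
  rw [e1, e2, e3]
  ring

theorem fderiv_rhoS_self {n : ℕ} (x : En n) : fderiv ℝ rhoS x x =
    4 * ((∑ i : Fin n, if (i : ℕ) < 2 then x i ^ 4 else 0)
      + (∑ i : Fin n, if (i : ℕ) < 2 then 0 else x i ^ 2) ^ 2 / 16)
      + 2 * ((∑ i : Fin n, x i ^ 2) / 200) := by
  have hd : HasFDerivAt rhoS (fderiv ℝ rhoS x) ((1 : ℝ) • x) := by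
    rw [one_smul]
    exact ((contDiff_rhoS (m := 1)).differentiable (by norm_num) x).hasFDerivAt
  have hg : HasDerivAt (fun t : ℝ => t • x) x 1 := by
    simpa using (hasDerivAt_id (1 : ℝ)).smul_const x
  have h1' := HasFDerivAt.comp_hasDerivAt (f := fun t : ℝ => t • x) (1 : ℝ) hd hg
  have h1 : HasDerivAt (fun t : ℝ => rhoS (t • x)) (fderiv ℝ rhoS x x) 1 := h1'
  obtain ⟨a, ha⟩ : ∃ a, a = (∑ i : Fin n, if (i : ℕ) < 2 then x i ^ 4 else 0)
      + (∑ i : Fin n, if (i : ℕ) < 2 then 0 else x i ^ 2) ^ 2 / 16 := ⟨_, rfl⟩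
  obtain ⟨b, hb⟩ : ∃ b, b = (∑ i : Fin n, x i ^ 2) / 200 := ⟨_, rfl⟩
  have e : (fun t : ℝ => rhoS (t • x)) = fun t => a * t ^ 4 + b * t ^ 2 - 1 := by
    funext t
    rw [rhoS_smul, ha, hb]
  rw [e] at h1
  have h2 : HasDerivAt (fun t : ℝ => a * t ^ 4 + b * t ^ 2 - 1) (4 * a + 2 * b) 1 := by
    have := (((hasDerivAt_pow 4 (1 : ℝ)).const_mul a).add
      ((hasDerivAt_pow 2 (1 : ℝ)).const_mul b)).sub_const 1
    have h3 : HasDerivAt (fun t : ℝ => a * t ^ 4 + b * t ^ 2 - 1) _ 1 := this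
    exact h3.congr_deriv (by push_cast; ring)
  rw [h1.unique h2, ha, hb]

theorem fderiv_rhoS_ne {n : ℕ} {x : En n} (hx : x ∈ frontier (OmS n)) : fderiv ℝ rhoS x ≠ 0 := by
  intro h0
  have h1 : rhoS x = 0 := frontier_lt_subset_eq continuous_rhoS continuous_const hx
  have h2 := fderiv_rhoS_self x
  rw [h0] at h2
  have hA := nonneg_A x
  have hB : 0 ≤ (∑ i : Fin n, if (i : ℕ) < 2 then 0 else x i ^ 2) ^ 2 / 16 := by positivity
  unfold rhoS at h1
  simp only [zero_apply] at h2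
  linarith

/-- A linear isometry which fixes the first two unit vectors. -/
theorem coord_fixed {n : ℕ} (A : En n ≃ₗᵢ[ℝ] En n) {j : ℕ} (hA : A (ev n j) = ev n j) (x : En n)
    {i : Fin n} (hi : (i : ℕ) = j) : A x i = x i := by
  have key : ∀ y : En n, inner ℝ (ev n j) y = y i := by
    intro y
    rw [PiLp.inner_apply, Finset.sum_eq_single i]
    · simp [ev_apply, hi]
    · intro b _ hb
      have : (b : ℕ) ≠ j := fun h => hb (Fin.ext (h.trans hi.symm))
      simp [ev_apply, this]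
    · intro h
      exact absurd (Finset.mem_univ i) h
  rw [← key (A x), ← key x]
  conv_lhs => rw [← hA]
  exact A.inner_map_map _ _

theorem rhoS_isometry {n : ℕ} (A : En n ≃ₗᵢ[ℝ] En n) (h0 : A (ev n 0) = ev n 0)
    (h1 : A (ev n 1) = ev n 1) (x : En n) : rhoS (A x) = rhoS x := by
  have hc : ∀ i : Fin n, (i : ℕ) < 2 → A x i = x i := by
    intro i hi
    have : (i : ℕ) = 0 ∨ (i : ℕ) = 1 := by omega
    rcases this with h | h
    · exact coord_fixed A h0 x h
    · exact coord_fixed A h1 x h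
  have hn : ∀ y : En n, ‖y‖ ^ 2 = ∑ i : Fin n, y i ^ 2 := by
    intro y
    rw [EuclideanSpace.norm_sq_eq]
    simp
  have hsplit : ∀ y : En n, (∑ i : Fin n, if (i : ℕ) < 2 then 0 else y i ^ 2) =
      ‖y‖ ^ 2 - ∑ i : Fin n, (if (i : ℕ) < 2 then y i ^ 2 else 0) := by
    intro y
    rw [hn, ← Finset.sum_sub_distrib]
    refine Finset.sum_congr rfl fun i _ => ?_
    by_cases hi : (i : ℕ) < 2
    · simp [hi]
    · simp [hi]
  have e1 : (∑ i : Fin n, if (i : ℕ) < 2 then (A x) i ^ 4 else 0) =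
      ∑ i : Fin n, if (i : ℕ) < 2 then x i ^ 4 else 0 := by
    refine Finset.sum_congr rfl fun i _ => ?_
    by_cases hi : (i : ℕ) < 2
    · simp only [hi, if_true, hc i hi]
    · simp [hi]
  have e2 : (∑ i : Fin n, if (i : ℕ) < 2 then (A x) i ^ 2 else 0) =
      ∑ i : Fin n, if (i : ℕ) < 2 then x i ^ 2 else 0 := by
    refine Finset.sum_congr rfl fun i _ => ?_
    by_cases hi : (i : ℕ) < 2
    · simp only [hi, if_true, hc i hi]
    · simp [hi]
  unfold rhoS
  rw [← hn (A x), ← hn x, hsplit (A x), hsplit x, e1, e2, A.norm_map]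

end Pool.Agent.Lib.MP_a50f86_an.SC
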