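import Pool.Agent.Lib.MP_a50f86_an.SC.Dom
import Pool.Agent.Lib.MP_a50f86_an.Core

open Complex Metric Set Filter Topology InnerProductSpace

namespace Pool.Agent.Lib.MP_a50f86_an.SC

/-- Holomorphic data of the Enneper disc. -/
noncomputable def HE (t : ℝ) (j : ℕ) (w : ℂ) : ℂ :=
  if j = 0 then t * (w - w ^ 3 / 12) else
  if j = 1 then - I * (t * (w + w ^ 3 / 12)) else
  if j = 2 then t * (w ^ 2 / 2) else 0

/-- Their derivatives. -/
noncomputable def HE' (t : ℝ) (j : ℕ) (w : ℂ) : ℂ :=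
  if j = 0 then t * (1 - w ^ 2 / 4) else
  if j = 1 then - I * (t * (1 + w ^ 2 / 4)) else
  if j = 2 then t * w else 0

theorem hasDerivAt_HE (t : ℝ) (j : ℕ) (w : ℂ) : HasDerivAt (HE t j) (HE' t j w) w := by
  have h1 : HasDerivAt (fun w : ℂ => w) 1 w := hasDerivAt_id w
  have h2 : HasDerivAt (fun w : ℂ => w ^ 2) (2 * w) w := by
    simpa using hasDerivAt_pow 2 w
  have h3 : HasDerivAt (fun w : ℂ => w ^ 3) (3 * w ^ 2) w := by
    simpa using hasDerivAt_pow 3 w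
  unfold HE HE'
  by_cases j0 : j = 0
  · simp only [j0, if_true]
    exact ((h1.sub (h3.div_const 12)).const_mul (t : ℂ)).congr_deriv (by ring)
  by_cases j1 : j = 1
  · simp only [j1, if_true, one_ne_zero, if_false]
    exact (((h1.add (h3.div_const 12)).const_mul (t : ℂ)).const_mul (-I)).congr_deriv (by ring)
  by_cases j2 : j = 2
  · simp only [j2, if_true, OfNat.ofNat_ne_zero, OfNat.ofNat_ne_one, if_false]
    exact ((h2.div_const 2).const_mul (t : ℂ)).congr_deriv (by ring)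
  · simp only [j0, j1, j2, if_false]
    exact hasDerivAt_const w 0

/-- The Enneper disc. -/
noncomputable def ennS (n : ℕ) (t : ℝ) (w : ℂ) : En n :=
  WithLp.toLp 2 fun i => (HE t (i : ℕ) w).re

theorem ennS_smul (n : ℕ) (t c : ℝ) (w : ℂ) : ennS n (c * t) w = c • ennS n t w := by
  ext i
  have : HE (c * t) (i : ℕ) w = (c : ℂ) * HE t (i : ℕ) w := by
    unfold HE
    split_ifs <;> push_cast <;> ring
  simp [ennS, this]

theorem iso_HE {n : ℕ} (hn : 3 ≤ n) (t : ℝ) (w : ℂ) :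
    ∑ i : Fin n, (deriv (HE t (i : ℕ)) w) ^ 2 = 0 := by
  obtain ⟨k, rfl⟩ : ∃ k, n = k + 3 := ⟨n - 3, by omega⟩
  have e : ∀ j, deriv (HE t j) w = HE' t j w := fun j => (hasDerivAt_HE t j w).deriv
  simp only [e]
  rw [Fin.sum_univ_succ, Fin.sum_univ_succ, Fin.sum_univ_succ]
  have hz : ∀ i : Fin k, HE' t ((i.succ.succ.succ : Fin (k + 3)) : ℕ) w = 0 := by
    intro i
    simp only [Fin.val_succ, HE']
    rw [if_neg (by omega), if_neg (by omega), if_neg (by omega)]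
  have v0 : ((0 : Fin (k + 3)) : ℕ) = 0 := rfl
  have v1 : ((Fin.succ (0 : Fin (k + 2)) : Fin (k + 3)) : ℕ) = 1 := rfl
  have v2 : ((Fin.succ (Fin.succ (0 : Fin (k + 1))) : Fin (k + 3)) : ℕ) = 2 := rfl
  simp only [hz, v0, v1, v2]
  simp [HE']
  linear_combination (↑t * (1 + w ^ 2 / 4)) ^ 2 * I_sq

theorem rho_enn_pos {A B : ℝ} (hA : 0 ≤ A) (hB : 0 ≤ B) (h1 : A + B < 1) :
    (169 / 144) ^ 2 * (A ^ 2 * (1 - A / 12 + B / 4) ^ 4
        + B ^ 2 * (1 + A / 4 - B / 12) ^ 4 + (A - B) ^ 4 / 256)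
      + (169 / 144) * (A * (1 - A / 12 + B / 4) ^ 2 + B * (1 + A / 4 - B / 12) ^ 2
        + (A - B) ^ 2 / 4) / 200 < 1 := by
  obtain ⟨e, he⟩ : ∃ e : ℝ, e = 1 - A - B := ⟨_, rfl⟩
  have he0 : 0 < e := by rw [he]; linarith
  have key : 1 - ((169 / 144) ^ 2 * (A ^ 2 * (1 - A / 12 + B / 4) ^ 4
        + B ^ 2 * (1 + A / 4 - B / 12) ^ 4 + (A - B) ^ 4 / 256)
      + (169 / 144) * (A * (1 - A / 12 + B / 4) ^ 2 + B * (1 + A / 4 - B / 12) ^ 2
        + (A - B) ^ 2 / 4) / 200) = (1 / 1) * (A ^ 0 * B ^ 0 * e ^ 6)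
        + (172631 / 28800) * (A ^ 0 * B ^ 1 * e ^ 5)
        + (14093023 / 1036800) * (A ^ 0 * B ^ 2 * e ^ 4)
        + (185242877 / 12441600) * (A ^ 0 * B ^ 3 * e ^ 3)
        + (636108353 / 79626240) * (A ^ 0 * B ^ 4 * e ^ 2)
        + (3071036357 / 1791590400) * (A ^ 0 * B ^ 5 * e ^ 1)
        + (84446407 / 5374771200) * (A ^ 0 * B ^ 6 * e ^ 0)
        + (172631 / 28800) * (A ^ 1 * B ^ 0 * e ^ 5)
        + (574817 / 19200) * (A ^ 1 * B ^ 1 * e ^ 4)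
        + (219483629 / 4147200) * (A ^ 1 * B ^ 2 * e ^ 3)
        + (451481843 / 11059200) * (A ^ 1 * B ^ 3 * e ^ 2)
        + (2489683961 / 199065600) * (A ^ 1 * B ^ 4 * e ^ 1)
        + (238574081 / 358318080) * (A ^ 1 * B ^ 5 * e ^ 0)
        + (14093023 / 1036800) * (A ^ 2 * B ^ 0 * e ^ 4)
        + (219483629 / 4147200) * (A ^ 2 * B ^ 1 * e ^ 3)
        + (52222581 / 819200) * (A ^ 2 * B ^ 2 * e ^ 2)
        + (836299303 / 33177600) * (A ^ 2 * B ^ 3 * e ^ 1)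
        + (137069711 / 199065600) * (A ^ 2 * B ^ 4 * e ^ 0)
        + (185242877 / 12441600) * (A ^ 3 * B ^ 0 * e ^ 3)
        + (451481843 / 11059200) * (A ^ 3 * B ^ 1 * e ^ 2)
        + (836299303 / 33177600) * (A ^ 3 * B ^ 2 * e ^ 1)
        + (11041207 / 99532800) * (A ^ 3 * B ^ 3 * e ^ 0)
        + (636108353 / 79626240) * (A ^ 4 * B ^ 0 * e ^ 2)
        + (2489683961 / 199065600) * (A ^ 4 * B ^ 1 * e ^ 1)
        + (137069711 / 199065600) * (A ^ 4 * B ^ 2 * e ^ 0)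
        + (3071036357 / 1791590400) * (A ^ 5 * B ^ 0 * e ^ 1)
        + (238574081 / 358318080) * (A ^ 5 * B ^ 1 * e ^ 0)
        + (84446407 / 5374771200) * (A ^ 6 * B ^ 0 * e ^ 0) := by
    rw [he]
    ring
  have hpos : 0 < 1 - ((169 / 144) ^ 2 * (A ^ 2 * (1 - A / 12 + B / 4) ^ 4
        + B ^ 2 * (1 + A / 4 - B / 12) ^ 4 + (A - B) ^ 4 / 256)
      + (169 / 144) * (A * (1 - A / 12 + B / 4) ^ 2 + B * (1 + A / 4 - B / 12) ^ 2
        + (A - B) ^ 2 / 4) / 200) := by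
    rw [key]
    positivity
  linarith

theorem ennS_mem {n : ℕ} (hn : 3 ≤ n) {z : ℂ} (hz : z ∈ ball (0 : ℂ) 1) :
    ennS n (13 / 12) z ∈ OmS n := by
  have hz1 : z.re ^ 2 + z.im ^ 2 < 1 := by
    have : ‖z‖ < 1 := by simpa using hz
    have h2 : ‖z‖ ^ 2 < 1 := by nlinarith [norm_nonneg z]
    rw [← normSq_eq_norm_sq, normSq_apply] at h2
    nlinarith
  obtain ⟨k, rfl⟩ : ∃ k, n = k + 3 := ⟨n - 3, by omega⟩
  have h0 : (HE (13 / 12) 0 z).re = 13 / 12 * (z.re * (1 - z.re ^ 2 / 12 + z.im ^ 2 / 4)) := by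
    have e : HE (13 / 12) 0 z = ((13 / 12 : ℝ) : ℂ) * (z - z ^ 3 * ((1 / 12 : ℝ) : ℂ)) := by
      simp [HE]; ring
    rw [e, Complex.re_ofReal_mul, Complex.sub_re, Complex.re_mul_ofReal]
    simp only [pow_succ, pow_zero, one_mul, mul_re, mul_im]
    ring
  have h1 : (HE (13 / 12) 1 z).re = 13 / 12 * (z.im * (1 + z.re ^ 2 / 4 - z.im ^ 2 / 12)) := by
    have e : HE (13 / 12) 1 z = - I * (((13 / 12 : ℝ) : ℂ) * (z + z ^ 3 * ((1 / 12 : ℝ) : ℂ))) := by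
      simp [HE]; ring
    have h : (- I * (((13 / 12 : ℝ) : ℂ) * (z + z ^ 3 * ((1 / 12 : ℝ) : ℂ)))).re =
        (((13 / 12 : ℝ) : ℂ) * (z + z ^ 3 * ((1 / 12 : ℝ) : ℂ))).im := by
      rw [Complex.mul_re]; simp
    rw [e, h, Complex.im_ofReal_mul, Complex.add_im, Complex.im_mul_ofReal]
    simp only [pow_succ, pow_zero, one_mul, mul_re, mul_im]
    ring
  have h2 : (HE (13 / 12) 2 z).re = 13 / 24 * (z.re ^ 2 - z.im ^ 2) := by
    have e : HE (13 / 12) 2 z = ((13 / 24 : ℝ) : ℂ) * z ^ 2 := by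
      simp [HE]; ring
    rw [e, Complex.re_ofReal_mul]
    simp only [pow_succ, pow_zero, one_mul, mul_re]
  have h3 : ∀ i : Fin k, (HE (13 / 12) ((i.succ.succ.succ : Fin (k + 3)) : ℕ) z).re = 0 := by
    intro i
    simp only [Fin.val_succ, HE]
    rw [if_neg (by omega), if_neg (by omega), if_neg (by omega)]
    simp
  show rhoS (ennS (k + 3) (13 / 12) z) < 0
  unfold rhoS ennS
  simp only
  rw [Fin.sum_univ_succ, Fin.sum_univ_succ, Fin.sum_univ_succ,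
    Fin.sum_univ_succ (n := k + 2), Fin.sum_univ_succ (n := k + 1), Fin.sum_univ_succ (n := k),
    Fin.sum_univ_succ (n := k + 2), Fin.sum_univ_succ (n := k + 1), Fin.sum_univ_succ (n := k)]
  simp only [h3]
  have v0 : ((0 : Fin (k + 3)) : ℕ) = 0 := rfl
  have v1 : ((Fin.succ (0 : Fin (k + 2)) : Fin (k + 3)) : ℕ) = 1 := rfl
  have v2 : ((Fin.succ (Fin.succ (0 : Fin (k + 1))) : Fin (k + 3)) : ℕ) = 2 := rfl
  simp only [v0, v1, v2, h0, h1, h2]
  have hs : ∀ i : Fin k, ¬ (((i.succ.succ.succ : Fin (k + 3)) : ℕ) < 2) := by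
    intro i
    simp only [Fin.val_succ]
    omega
  simp only [hs, if_false]
  have := rho_enn_pos (sq_nonneg z.re) (sq_nonneg z.im) hz1
  norm_num
  norm_num at this
  nlinarith [this]

end Pool.Agent.Lib.MP_a50f86_an.SC
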