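import Pool.Agent.Lib.MP_a50f86_an.SC.Holo

open Complex Metric Set Filter Topology InnerProductSpace

namespace Pool.Agent.Lib.MP_a50f86_an.SC

/-- Montel's theorem along an ultrafilter. -/
theorem montel {H : ℕ → ℂ → ℂ} (hH : ∀ k, DifferentiableOn ℂ (H k) (ball (0 : ℂ) 1)) {C : ℝ}
    (hC0 : 0 ≤ C) (hC : ∀ k, ∀ z ∈ ball (0 : ℂ) 1, ‖H k z‖ ≤ C / (1 - ‖z‖)) (U : Ultrafilter ℕ) :
    ∃ G : ℂ → ℂ, TendstoLocallyUniformlyOn H G U (ball (0 : ℂ) 1) := by
  have hex : ∀ z : ℂ, ∃ x : ℂ, z ∈ ball (0 : ℂ) 1 → Tendsto (fun k => H k z) U (𝓝 x) := by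
    intro z
    by_cases hz : z ∈ ball (0 : ℂ) 1
    · have hK : IsCompact (closedBall (0 : ℂ) (C / (1 - ‖z‖))) := isCompact_closedBall _ _
      obtain ⟨x, -, hx⟩ := hK.ultrafilter_le_nhds' (U.map (fun k => H k z)) (by
        rw [Ultrafilter.mem_map]
        refine Filter.univ_mem' fun k => ?_
        simpa using hC k z hz)
      exact ⟨x, fun _ => hx⟩
    · exact ⟨0, fun h => absurd h hz⟩
  choose G hG using hex
  refine ⟨G, ?_⟩
  rw [Metric.tendstoLocallyUniformlyOn_iff]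
  intro ε hε x hx
  have hx1 : ‖x‖ < 1 := by simpa using hx
  obtain ⟨δ, hδ⟩ : ∃ δ, δ = (1 - ‖x‖) / 2 := ⟨_, rfl⟩
  have hδ0 : 0 < δ := by rw [hδ]; linarith
  obtain ⟨L, hL⟩ : ∃ L, L = (2 * (C / δ)) / δ := ⟨_, rfl⟩
  have hCδ : 0 ≤ C / δ := by positivity
  have hL0 : 0 ≤ L := by rw [hL]; positivity
  have hnorm : ∀ y ∈ ball x δ, ‖y‖ ≤ 1 - δ ∧ y ∈ ball (0 : ℂ) 1 := by
    intro y hy
    have h1 : ‖y - x‖ < δ := by simpa [dist_eq_norm] using hy
    have h2 : ‖y‖ ≤ ‖y - x‖ + ‖x‖ := by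
      simpa using norm_add_le (y - x) x
    have h3 : ‖y‖ ≤ 1 - δ := by rw [hδ] at h1 ⊢; linarith
    exact ⟨h3, by simp; linarith⟩
  have hbd : ∀ k, ∀ y ∈ ball x δ, ‖H k y‖ ≤ C / δ := by
    intro k y hy
    obtain ⟨h1, h2⟩ := hnorm y hy
    refine (hC k y h2).trans ?_
    exact div_le_div_of_nonneg_left hC0 hδ0 (by linarith)
  have hLip : ∀ k, ∀ y ∈ ball x δ, dist (H k y) (H k x) ≤ L * dist y x := by
    intro k y hy
    have hd : DifferentiableOn ℂ (H k) (ball x δ) := (hH k).mono fun w hw => (hnorm w hw).2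
    have hmaps : MapsTo (H k) (ball x δ) (closedBall (H k x) (2 * (C / δ))) := by
      intro w hw
      rw [mem_closedBall, dist_eq_norm]
      have h1 := hbd k w hw
      have h2 := hbd k x (mem_ball_self hδ0)
      have h3 := norm_sub_le (H k w) (H k x)
      linarith
    have := Complex.dist_le_div_mul_dist_of_mapsTo_ball hd hmaps hy
    rw [hL]
    exact this
  obtain ⟨η, hη⟩ : ∃ η, η = min δ (ε / (3 * (L + 1))) := ⟨_, rfl⟩
  have hη0 : 0 < η := by rw [hη]; exact lt_min hδ0 (by positivity)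
  have hηL : L * η ≤ ε / 3 := by
    have h1 : η ≤ ε / (3 * (L + 1)) := by rw [hη]; exact min_le_right _ _
    have h2 : L * η ≤ (L + 1) * (ε / (3 * (L + 1))) := by
      apply mul_le_mul (by linarith) h1 hη0.le (by linarith)
    have h3 : (L + 1) * (ε / (3 * (L + 1))) = ε / 3 := by field_simp
    linarith
  have hLη : ∀ k, ∀ y ∈ ball x η, dist (H k y) (H k x) ≤ ε / 3 := by
    intro k y hy
    have hy' : y ∈ ball x δ := ball_subset_ball (by rw [hη]; exact min_le_left _ _) hy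
    refine (hLip k y hy').trans ?_
    have h1 : dist y x < η := hy
    nlinarith [dist_nonneg (x := y) (y := x)]
  refine ⟨ball x η ∩ ball (0 : ℂ) 1, ?_, ?_⟩
  · exact mem_nhdsWithin_of_mem_nhds ((isOpen_ball.inter isOpen_ball).mem_nhds
      ⟨mem_ball_self hη0, hx⟩)
  · have h1 : ∀ᶠ k in (U : Filter ℕ), dist (H k x) (G x) < ε / 3 :=
      (hG x hx).eventually (Metric.ball_mem_nhds (G x) (by positivity))
    filter_upwards [h1] with k hk y hy
    have h2 : dist (G y) (G x) ≤ ε / 3 := by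
      have ht := ((hG y hy.2).dist (hG x hx))
      exact le_of_tendsto ht (Filter.univ_mem' fun j => hLη j y hy.1)
    have h3 := hLη k y hy.1
    calc dist (G y) (H k y) ≤ dist (G y) (G x) + dist (G x) (H k x) + dist (H k x) (H k y) :=
          dist_triangle4 _ _ _ _
      _ < ε := by
          rw [dist_comm (G x), dist_comm (H k x) (H k y)]
          linarith

/-- bound for the holomorphic functions of a bounded harmonic map -/
theorem holo_bound {H : ℂ → ℂ} (hH : DifferentiableOn ℂ H (ball (0 : ℂ) 1)) {M : ℝ} (hM : 0 < M)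
    (hre : ∀ z ∈ ball (0 : ℂ) 1, |(H z).re| ≤ M) (him : (H 0).im = 0) :
    ∀ z ∈ ball (0 : ℂ) 1, ‖H z‖ ≤ 4 * M / (1 - ‖z‖) := by
  intro z hz
  have hz1 : ‖z‖ < 1 := by simpa using hz
  have h0 : ‖H 0‖ ≤ M := by
    have h1 : H 0 = ((H 0).re : ℂ) := by
      apply Complex.ext
      · simp
      · simp [him]
    rw [h1, Complex.norm_real, Real.norm_eq_abs]
    exact hre 0 (by simp)
  have h2 := Complex.borelCaratheodory hM hH (fun w hw => (le_abs_self _).trans (hre w hw))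
    one_pos hz
  have h3 : 0 < 1 - ‖z‖ := by linarith
  refine h2.trans ?_
  rw [← add_div]
  apply div_le_div_of_nonneg_right _ h3.le
  nlinarith [norm_nonneg z, norm_nonneg (H 0)]

theorem deriv_bound {H : ℂ → ℂ} (hH : DifferentiableOn ℂ H (ball (0 : ℂ) 1)) {C : ℝ}
    (hC0 : 0 ≤ C) (hC : ∀ z ∈ ball (0 : ℂ) 1, ‖H z‖ ≤ C / (1 - ‖z‖)) :
    ‖deriv H 0‖ ≤ 8 * C := by
  have hsub : ball (0 : ℂ) (1 / 2) ⊆ ball (0 : ℂ) 1 := ball_subset_ball (by norm_num)
  have hbd : ∀ z ∈ ball (0 : ℂ) (1 / 2), ‖H z‖ ≤ 2 * C := by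
    intro z hz
    have hz1 : ‖z‖ < 1 / 2 := by simpa using hz
    refine (hC z (hsub hz)).trans ?_
    rw [div_le_iff₀ (by linarith)]
    nlinarith
  have hmaps : MapsTo H (ball (0 : ℂ) (1 / 2)) (closedBall (H 0) (4 * C)) := by
    intro w hw
    rw [mem_closedBall, dist_eq_norm]
    have h1 := hbd w hw
    have h2 := hbd 0 (by simp)
    have h3 := norm_sub_le (H w) (H 0)
    linarith
  have := Complex.norm_deriv_le_div_of_mapsTo_ball (hH.mono hsub) hmaps (by norm_num)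
  refine this.trans ?_
  rw [div_le_iff₀ (by norm_num)]
  linarith

theorem abs_coord_le {n : ℕ} (x : En n) (i : Fin n) : |x i| ≤ ‖x‖ := by
  have := PiLp.norm_apply_le x i
  simpa using this

/-- A small affine disc is a conformal harmonic disc. -/
theorem affine_disc {n : ℕ} {Om : Set (En n)} (hO : IsOpen Om) {p : En n} (hp : p ∈ Om)
    {u v : En n} (huv : ‖u‖ = ‖v‖) (hin : inner ℝ u v = 0) :
    ∃ r : ℝ, 0 < r ∧ ∃ f : ℂ → En n, CHn Om f ∧ f 0 = p ∧ fderiv ℝ f 0 1 = r • u ∧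
      fderiv ℝ f 0 I = r • v := by
  obtain ⟨ε, hε, hball⟩ := Metric.isOpen_iff.1 hO p hp
  obtain ⟨c, hc⟩ : ∃ c : ℝ, c = ε / (2 * (‖u‖ + ‖v‖ + 1)) := ⟨_, rfl⟩
  have hs : 0 < ‖u‖ + ‖v‖ + 1 := by positivity
  have hc0 : 0 < c := by rw [hc]; positivity
  have hd : ∀ z : ℂ, HasFDerivAt (fun z : ℂ => p + (z.re • (c • u) + z.im • (c • v)))
      (reCLM.smulRight (c • u) + imCLM.smulRight (c • v)) z := by
    intro z
    have h1 : HasFDerivAt (fun z : ℂ => z.re • (c • u)) (reCLM.smulRight (c • u)) z :=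
      (reCLM.smulRight (c • u)).hasFDerivAt
    have h2 : HasFDerivAt (fun z : ℂ => z.im • (c • v)) (imCLM.smulRight (c • v)) z :=
      (imCLM.smulRight (c • v)).hasFDerivAt
    exact (h1.add h2).const_add p
  have hf1 : ∀ z : ℂ, fderiv ℝ (fun z : ℂ => p + (z.re • (c • u) + z.im • (c • v))) z 1 = c • u := by
    intro z
    rw [(hd z).fderiv]
    simp
  have hf2 : ∀ z : ℂ, fderiv ℝ (fun z : ℂ => p + (z.re • (c • u) + z.im • (c • v))) z I = c • v := by
    intro z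
    rw [(hd z).fderiv]
    simp
  refine ⟨c, hc0, fun z => p + (z.re • (c • u) + z.im • (c • v)), ⟨?_, ?_, ?_, ?_⟩, by simp,
    hf1 0, hf2 0⟩
  · have h1 : ContDiff ℝ 2 (fun z : ℂ => z.re • (c • u)) := (reCLM.smulRight (c • u)).contDiff
    have h2 : ContDiff ℝ 2 (fun z : ℂ => z.im • (c • v)) := (imCLM.smulRight (c • v)).contDiff
    exact (contDiff_const.add (h1.add h2)).contDiffOn
  · intro z hz
    apply hball
    have hz1 : ‖z‖ < 1 := by simpa using hz
    have hr : |z.re| ≤ 1 := (abs_re_le_norm z).trans hz1.le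
    have hi : |z.im| ≤ 1 := (abs_im_le_norm z).trans hz1.le
    rw [mem_ball, dist_eq_norm, add_sub_cancel_left]
    have h1 : ‖z.re • (c • u)‖ ≤ c * ‖u‖ := by
      rw [norm_smul, norm_smul, Real.norm_eq_abs, Real.norm_eq_abs, abs_of_pos hc0]
      have : 0 ≤ c * ‖u‖ := by positivity
      nlinarith
    have h2 : ‖z.im • (c • v)‖ ≤ c * ‖v‖ := by
      rw [norm_smul, norm_smul, Real.norm_eq_abs, Real.norm_eq_abs, abs_of_pos hc0]
      have : 0 ≤ c * ‖v‖ := by positivity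
      nlinarith
    have h3 := norm_add_le (z.re • (c • u)) (z.im • (c • v))
    have h4 : c * (‖u‖ + ‖v‖ + 1) = ε / 2 := by
      rw [hc]; field_simp
    nlinarith
  · intro z _
    rw [hf1, hf2]
    constructor
    · rw [norm_smul, norm_smul, huv]
    · rw [inner_smul_left, inner_smul_right, hin]
      simp
  · intro z _
    simp only [hf1, hf2]
    simp

/-- Existence of extremal discs in open bounded convex sets. -/
theorem exists_extremal {n : ℕ} {Om : Set (En n)} (hO : IsOpen Om) (hb : Bornology.IsBounded Om)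
    (hc : Convex ℝ Om) {p : En n} (hp : p ∈ Om) {u v : En n} (huv : ‖u‖ = ‖v‖)
    (hin : inner ℝ u v = 0) (hu : u ≠ 0) :
    ∃ f : ℂ → En n, ∃ r : ℝ, 0 < r ∧ CHn Om f ∧ f 0 = p ∧ fderiv ℝ f 0 1 = r • u ∧
      fderiv ℝ f 0 I = r • v ∧ ∀ g : ℂ → En n, ∀ s : ℝ, 0 < s → CHn Om g → g 0 = p →
        fderiv ℝ g 0 1 = s • u → fderiv ℝ g 0 I = s • v → s ≤ r := by
  classical
  obtain ⟨M, hM, hMb⟩ := hb.exists_pos_norm_le
  have h0mem : (0 : ℂ) ∈ ball (0 : ℂ) 1 := by simp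
  -- bounds for the holomorphic data
  have hbound : ∀ f : ℂ → En n, CHn Om f → ∀ H : Fin n → ℂ → ℂ,
      (∀ i, DifferentiableOn ℂ (H i) (ball (0 : ℂ) 1)) →
      (∀ i, ∀ z ∈ ball (0 : ℂ) 1, (H i z).re = f z i) → (∀ i, (H i 0).im = 0) →
      ∀ i, ∀ z ∈ ball (0 : ℂ) 1, ‖H i z‖ ≤ 4 * M / (1 - ‖z‖) := by
    intro f hf H hH hre him i
    refine holo_bound (hH i) hM ?_ (him i)
    intro z hz
    rw [hre i z hz]
    exact (abs_coord_le _ _).trans (hMb _ (hf.2.1 z hz))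
  set S : Set ℝ := {r | 0 < r ∧ ∃ f : ℂ → En n, CHn Om f ∧ f 0 = p ∧ fderiv ℝ f 0 1 = r • u ∧
      fderiv ℝ f 0 I = r • v} with hS
  have hSne : S.Nonempty := by
    obtain ⟨r, hr, f, h1, h2, h3, h4⟩ := affine_disc hO hp huv hin
    exact ⟨r, hr, f, h1, h2, h3, h4⟩
  obtain ⟨i0, hi0⟩ : ∃ i, u i ≠ 0 := by
    by_contra hcon
    push Not at hcon
    exact hu (by ext i; simpa using hcon i)
  have hSb : BddAbove S := by
    refine ⟨8 * (4 * M) / |u i0|, ?_⟩
    rintro r ⟨hr, f, hf, hf0, hfx, hfy⟩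
    obtain ⟨H, hH, hre, -, him, hder⟩ := exists_holo_of_CHn hf
    have h1 := deriv_bound (hH i0) (by positivity) (hbound f hf H hH hre him i0)
    have h2 := hder 0 h0mem 1 i0
    rw [hfx] at h2
    have h3 : r * u i0 = (deriv (H i0) 0).re := by simpa using h2
    rw [le_div_iff₀ (abs_pos.2 hi0)]
    calc r * |u i0| = |r * u i0| := by rw [abs_mul, abs_of_pos hr]
      _ = |(deriv (H i0) 0).re| := by rw [h3]
      _ ≤ ‖deriv (H i0) 0‖ := abs_re_le_norm _
      _ ≤ 8 * (4 * M) := h1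
  obtain ⟨ρ, -, hρ, hρS⟩ := exists_seq_tendsto_sSup hSne hSb
  choose hρ0 f hf hf0 hfx hfy using hρS
  choose H hH hre hiso him hder using fun k => exists_holo_of_CHn (hf k)
  obtain ⟨U, hU⟩ : ∃ U : Ultrafilter ℕ, (U : Filter ℕ) ≤ atTop :=
    ⟨Ultrafilter.of atTop, Ultrafilter.of_le _⟩
  have hM4 : (0 : ℝ) ≤ 4 * M := by positivity
  choose G hG using fun i => montel (fun k => hH k i) hM4
    (fun k => hbound (f k) (hf k) (H k) (hH k) (hre k) (him k) i) U
  have hGd : ∀ i, DifferentiableOn ℂ (G i) (ball (0 : ℂ) 1) := fun i =>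
    (hG i).differentiableOn (Filter.univ_mem' fun k => hH k i) isOpen_ball
  have hGt : ∀ i, ∀ z ∈ ball (0 : ℂ) 1, Tendsto (fun k => H k i z) U (𝓝 (G i z)) := fun i z hz =>
    (hG i).tendsto_at hz
  have hGdt : ∀ i, ∀ z ∈ ball (0 : ℂ) 1,
      Tendsto (fun k => deriv (H k i) z) U (𝓝 (deriv (G i) z)) := fun i z hz =>
    ((hG i).deriv (Filter.univ_mem' fun k => hH k i) isOpen_ball).tendsto_at hz
  set F : ℂ → En n := fun z => WithLp.toLp 2 (fun i => (G i z).re) with hF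
  have hFt : ∀ z ∈ ball (0 : ℂ) 1, Tendsto (fun k => f k z) U (𝓝 (F z)) := by
    intro z hz
    have e : (fun k => f k z) = fun k => WithLp.toLp 2 (fun i => (H k i z).re) := by
      funext k
      ext i
      simp [hre k i z hz]
    rw [e]
    refine ((PiLp.continuous_toLp 2 _).tendsto _).comp (tendsto_pi_nhds.2 fun i => ?_)
    exact (Complex.continuous_re.tendsto _).comp (hGt i z hz)
  have hF0 : F 0 = p := by
    refine tendsto_nhds_unique (hFt 0 h0mem) ?_
    simp only [hf0]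
    exact tendsto_const_nhds
  have hcl : ∀ L : En n →L[ℝ] ℝ, ∀ b : ℝ, (∀ a ∈ Om, L a < b) → ∀ z ∈ ball (0 : ℂ) 1,
      L (F z) ≤ b := by
    intro L b hL z hz
    refine le_of_tendsto ((L.continuous.tendsto _).comp (hFt z hz)) (Filter.univ_mem' fun k => ?_)
    exact (hL _ ((hf k).2.1 z hz)).le
  have hFm : ∀ z ∈ ball (0 : ℂ) 1, F z ∈ Om := by
    intro z hz
    by_contra hzO
    obtain ⟨L, hL⟩ := geometric_hahn_banach_open_point hc hO hzO
    set φ : ℂ → ℂ := fun w => Complex.exp (∑ i, ((L (EuclideanSpace.single i 1) : ℝ) : ℂ) * G i w)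
      with hφ
    have hLF : ∀ w, L (F w) = (∑ i, ((L (EuclideanSpace.single i 1) : ℝ) : ℂ) * G i w).re := by
      intro w
      have e : F w = ∑ i, (F w i) • (EuclideanSpace.single i (1 : ℝ) : En n) := by
        ext j
        simp [Finset.sum_apply, Pi.single_apply]
      rw [e, map_sum, Complex.re_sum]
      refine Finset.sum_congr rfl fun i _ => ?_
      rw [map_smul, smul_eq_mul, Complex.re_ofReal_mul, mul_comm]
    have hφn : ∀ w, ‖φ w‖ = Real.exp (L (F w)) := by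
      intro w
      rw [hφ, Complex.norm_exp, hLF]
    have hφd : DifferentiableOn ℂ φ (ball (0 : ℂ) 1) := by
      apply DifferentiableOn.cexp
      apply DifferentiableOn.fun_sum
      intro i _
      exact (differentiableOn_const _).mul (hGd i)
    have hmax : IsMaxOn (norm ∘ φ) (ball (0 : ℂ) 1) z := by
      intro w hw
      simp only [Function.comp_apply, Set.mem_ofPred_eq, hφn]
      exact Real.exp_le_exp.2 (hcl L _ hL w hw)
    have heq := Complex.eqOn_of_isPreconnected_of_isMaxOn_norm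
      (convex_ball (0 : ℂ) 1).isPreconnected isOpen_ball hφd hz hmax h0mem
    have h2 : ‖φ 0‖ = ‖φ z‖ := by rw [heq]; rfl
    rw [hφn, hφn, hF0] at h2
    exact (hL p hp).ne (Real.exp_injective h2)
  have hFiso : ∀ z ∈ ball (0 : ℂ) 1, ∑ i, (deriv (G i) z) ^ 2 = 0 := by
    intro z hz
    have h1 : Tendsto (fun k => ∑ i, (deriv (H k i) z) ^ 2) U (𝓝 (∑ i, (deriv (G i) z) ^ 2)) :=
      tendsto_finsetSum _ fun i _ => (hGdt i z hz).pow 2
    refine tendsto_nhds_unique h1 ?_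
    simp only [hiso _ z hz]
    exact tendsto_const_nhds
  obtain ⟨hCH, hFder⟩ := CHn_of_holo (Om := Om) (f := F) hGd (fun i z _ => rfl) hFiso hFm
  have hρU : Tendsto ρ U (𝓝 (sSup S)) := hρ.mono_left hU
  have hgen : ∀ w : ℂ, ∀ x : En n, (∀ k, fderiv ℝ (f k) 0 w = ρ k • x) →
      fderiv ℝ F 0 w = sSup S • x := by
    intro w x hx
    ext i
    rw [hFder 0 h0mem w i]
    have h1 : Tendsto (fun k => (deriv (H k i) 0 * w).re) U (𝓝 ((deriv (G i) 0 * w).re)) :=
      (Complex.continuous_re.tendsto _).comp ((hGdt i 0 h0mem).mul_const w)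
    refine tendsto_nhds_unique h1 ?_
    have e : (fun k => (deriv (H k i) 0 * w).re) = fun k => ρ k * x i := by
      funext k
      rw [← hder k 0 h0mem w i, hx k]
      simp
    rw [e]
    have : (sSup S • x) i = sSup S * x i := by simp
    rw [this]
    exact hρU.mul_const _
  refine ⟨F, sSup S, ?_, hCH, hF0, hgen 1 u hfx, hgen I v hfy, ?_⟩
  · obtain ⟨s, hs⟩ := hSne
    exact hs.1.trans_le (le_csSup hSb hs)
  · intro g s hs hg hg0 hgx hgy
    exact le_csSup hSb ⟨hs, g, hg, hg0, hgx, hgy⟩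

end Pool.Agent.Lib.MP_a50f86_an.SC
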