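import Mathlib

open Complex Metric Set Filter Topology InnerProductSpace

namespace Pool.Agent.Lib.MP_a50f86_an.SC

/-- Euclidean space. -/
abbrev En (n : ℕ) := EuclideanSpace ℝ (Fin n)

/-- Conformal harmonic discs in `Om`. -/
def CHn {n : ℕ} (Om : Set (En n)) (f : ℂ → En n) : Prop :=
  ContDiffOn ℝ 2 f (ball (0 : ℂ) 1) ∧
    (∀ z ∈ ball (0 : ℂ) 1, f z ∈ Om) ∧
    (∀ z ∈ ball (0 : ℂ) 1,
      ‖fderiv ℝ f z (1 : ℂ)‖ = ‖fderiv ℝ f z Complex.I‖ ∧
      inner ℝ (fderiv ℝ f z (1 : ℂ)) (fderiv ℝ f z Complex.I) = 0) ∧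
    (∀ z ∈ ball (0 : ℂ) 1,
      fderiv ℝ (fun w => fderiv ℝ f w (1 : ℂ)) z (1 : ℂ) +
        fderiv ℝ (fun w => fderiv ℝ f w Complex.I) z Complex.I = 0)

/-- components of the derivative -/
theorem fderiv_coord {n : ℕ} {f : ℂ → En n} {z : ℂ}
    (hf : DifferentiableAt ℝ f z) (v : ℂ) (i : Fin n) :
    (fderiv ℝ f z v) i = fderiv ℝ (fun w => f w i) z v := by
  have h := (EuclideanSpace.proj (𝕜 := ℝ) i).hasFDerivAt.comp z hf.hasFDerivAt
  have h2 : HasFDerivAt (fun w => f w i) ((EuclideanSpace.proj (𝕜 := ℝ) i).comp (fderiv ℝ f z)) z := h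
  rw [h2.fderiv]
  rfl

theorem fderiv_fderiv_apply {E : Type*} [NormedAddCommGroup E] [NormedSpace ℝ E] {f : ℂ → E}
    (hC : ContDiffOn ℝ 2 f (ball (0 : ℂ) 1)) {z : ℂ} (hz : z ∈ ball (0 : ℂ) 1) (v w : ℂ) :
    fderiv ℝ (fun y => fderiv ℝ f y v) z w = fderiv ℝ (fderiv ℝ f) z w v := by
  have hC1 : ContDiffOn ℝ 1 (fderiv ℝ f) (ball (0 : ℂ) 1) :=
    hC.fderiv_of_isOpen isOpen_ball (by norm_num)
  have hD : DifferentiableAt ℝ (fderiv ℝ f) z :=
    (hC1.differentiableOn (by norm_num)).differentiableAt (isOpen_ball.mem_nhds hz)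
  rw [fderiv_clm_apply hD (differentiableAt_const v)]
  simp

theorem harmonicOn_of {h : ℂ → ℝ} (hC : ContDiffOn ℝ 2 h (ball (0 : ℂ) 1))
    (hh : ∀ z ∈ ball (0 : ℂ) 1, fderiv ℝ (fun w => fderiv ℝ h w 1) z 1
      + fderiv ℝ (fun w => fderiv ℝ h w I) z I = 0) : HarmonicOnNhd h (ball (0 : ℂ) 1) := by
  intro x hx
  refine ⟨hC.contDiffAt (isOpen_ball.mem_nhds hx), ?_⟩
  filter_upwards [isOpen_ball.mem_nhds hx] with y hy
  have h1 := hh y hy
  rw [fderiv_fderiv_apply hC hy, fderiv_fderiv_apply hC hy] at h1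
  simp only [laplacian_eq_iteratedFDeriv_complexPlane, iteratedFDeriv_two_apply,
    Matrix.cons_val_zero, Matrix.cons_val_one, Pi.zero_apply]
  exact h1

theorem exists_holo {h : ℂ → ℝ} (hC : ContDiffOn ℝ 2 h (ball (0 : ℂ) 1))
    (hh : ∀ z ∈ ball (0 : ℂ) 1, fderiv ℝ (fun w => fderiv ℝ h w 1) z 1
      + fderiv ℝ (fun w => fderiv ℝ h w I) z I = 0) :
    ∃ H : ℂ → ℂ, DifferentiableOn ℂ H (ball (0 : ℂ) 1) ∧
      (∀ z ∈ ball (0 : ℂ) 1, (H z).re = h z) ∧ (H 0).im = 0 := by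
  obtain ⟨F, hF, hre⟩ := (harmonicOn_of hC hh).exists_analyticOnNhd_ball_re_eq
  refine ⟨fun z => F z - ((F 0).im : ℂ) * I, ?_, ?_, ?_⟩
  · exact (hF.differentiableOn).sub (differentiableOn_const _)
  · intro z hz
    have := hre hz
    simp only at this
    simp [this]
  · simp

theorem fderiv_re {H : ℂ → ℂ} {h : ℂ → ℝ} (hH : DifferentiableOn ℂ H (ball (0 : ℂ) 1))
    (hre : ∀ z ∈ ball (0 : ℂ) 1, (H z).re = h z) {z : ℂ} (hz : z ∈ ball (0 : ℂ) 1) :
    HasFDerivAt h (reCLM.comp ((deriv H z) • (1 : ℂ →L[ℝ] ℂ))) z := by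
  have hd : HasDerivAt H (deriv H z) z :=
    (hH.differentiableAt (isOpen_ball.mem_nhds hz)).hasDerivAt
  have h1 : HasFDerivAt H ((deriv H z) • (1 : ℂ →L[ℝ] ℂ)) z := hd.complexToReal_fderiv
  have h2 := (reCLM.hasFDerivAt (x := H z)).comp z h1
  refine h2.congr_of_eventuallyEq ?_
  filter_upwards [isOpen_ball.mem_nhds hz] with y hy
  simp [hre y hy]

theorem fderiv_re_apply {H : ℂ → ℂ} {h : ℂ → ℝ} (hH : DifferentiableOn ℂ H (ball (0 : ℂ) 1))
    (hre : ∀ z ∈ ball (0 : ℂ) 1, (H z).re = h z) {z : ℂ} (hz : z ∈ ball (0 : ℂ) 1) (v : ℂ) :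
    fderiv ℝ h z v = (deriv H z * v).re := by
  rw [(fderiv_re hH hre hz).fderiv]
  simp

/-- The real parts of holomorphic functions with isotropic derivative form a conformal harmonic
map. -/
theorem CHn_of_holo {n : ℕ} {Om : Set (En n)} {f : ℂ → En n} {H : Fin n → ℂ → ℂ}
    (hH : ∀ i, DifferentiableOn ℂ (H i) (ball (0 : ℂ) 1))
    (hre : ∀ i, ∀ z ∈ ball (0 : ℂ) 1, (H i z).re = f z i)
    (hiso : ∀ z ∈ ball (0 : ℂ) 1, ∑ i, (deriv (H i) z) ^ 2 = 0)
    (hm : ∀ z ∈ ball (0 : ℂ) 1, f z ∈ Om) :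
    CHn Om f ∧ ∀ z ∈ ball (0 : ℂ) 1, ∀ v : ℂ, ∀ i, (fderiv ℝ f z v) i = (deriv (H i) z * v).re := by
  have hC : ContDiffOn ℝ 2 f (ball (0 : ℂ) 1) := by
    rw [contDiffOn_euclidean]
    intro i
    have h1 : ContDiffOn ℂ 2 (H i) (ball (0 : ℂ) 1) := (hH i).contDiffOn isOpen_ball
    have h2 : ContDiffOn ℝ 2 (H i) (ball (0 : ℂ) 1) := h1.restrict_scalars ℝ
    have h3 : ContDiffOn ℝ 2 (fun z => (H i z).re) (ball (0 : ℂ) 1) :=
      reCLM.contDiff.comp_contDiffOn h2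
    exact h3.congr fun z hz => (hre i z hz).symm
  have hd : ∀ z ∈ ball (0 : ℂ) 1, DifferentiableAt ℝ f z := fun z hz =>
    (hC.differentiableOn (by norm_num)).differentiableAt (isOpen_ball.mem_nhds hz)
  have hder : ∀ z ∈ ball (0 : ℂ) 1, ∀ v : ℂ, ∀ i,
      (fderiv ℝ f z v) i = (deriv (H i) z * v).re := by
    intro z hz v i
    rw [fderiv_coord (hd z hz), fderiv_re_apply (hH i) (hre i) hz]
  refine ⟨⟨hC, hm, ?_, ?_⟩, hder⟩
  · intro z hz
    have h := hiso z hz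
    have hr := congrArg Complex.re h
    have hi := congrArg Complex.im h
    rw [Complex.re_sum] at hr
    rw [Complex.im_sum] at hi
    constructor
    · rw [EuclideanSpace.norm_eq, EuclideanSpace.norm_eq]
      congr 1
      simp only [hder z hz, Real.norm_eq_abs, sq_abs]
      rw [← sub_eq_zero, ← Finset.sum_sub_distrib]
      rw [← hr.trans Complex.zero_re]
      refine Finset.sum_congr rfl fun i _ => ?_
      simp [pow_two]
    · rw [PiLp.inner_apply]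
      have : (∑ i, inner ℝ ((fderiv ℝ f z 1) i) ((fderiv ℝ f z I) i)) =
          ∑ i, (- (1 / 2 : ℝ)) * ((deriv (H i) z) ^ 2).im := by
        refine Finset.sum_congr rfl fun i _ => ?_
        rw [hder z hz, hder z hz]
        simp [pow_two]
        ring
      rw [this, ← Finset.mul_sum, hi]
      simp
  · intro z hz
    have hC1 : ContDiffOn ℝ 1 (fderiv ℝ f) (ball (0 : ℂ) 1) :=
      hC.fderiv_of_isOpen isOpen_ball (by norm_num)
    have hD : DifferentiableAt ℝ (fderiv ℝ f) z :=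
      (hC1.differentiableOn (by norm_num)).differentiableAt (isOpen_ball.mem_nhds hz)
    have hdv : ∀ v : ℂ, DifferentiableAt ℝ (fun w => fderiv ℝ f w v) z :=
      fun v => hD.clm_apply (differentiableAt_const v)
    ext i
    rw [PiLp.add_apply, fderiv_coord (hdv 1), fderiv_coord (hdv I)]
    have hdH : DifferentiableOn ℂ (deriv (H i)) (ball (0 : ℂ) 1) := (hH i).deriv isOpen_ball
    have hdH' : ∀ v : ℂ, DifferentiableOn ℂ (fun w => deriv (H i) w * v) (ball (0 : ℂ) 1) :=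
      fun v => hdH.mul (differentiableOn_const _)
    rw [fderiv_re_apply (hdH' 1) (fun y hy => (hder y hy 1 i).symm) hz,
      fderiv_re_apply (hdH' I) (fun y hy => (hder y hy I i).symm) hz]
    have hdz := (hdH.differentiableAt (isOpen_ball.mem_nhds hz)).hasDerivAt
    rw [(hdz.mul_const 1).deriv, (hdz.mul_const I).deriv]
    simp

/-- Every conformal harmonic map of the disc comes from holomorphic functions. -/
theorem exists_holo_of_CHn {n : ℕ} {Om : Set (En n)} {f : ℂ → En n} (hf : CHn Om f) :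
    ∃ H : Fin n → ℂ → ℂ, (∀ i, DifferentiableOn ℂ (H i) (ball (0 : ℂ) 1)) ∧
      (∀ i, ∀ z ∈ ball (0 : ℂ) 1, (H i z).re = f z i) ∧
      (∀ z ∈ ball (0 : ℂ) 1, ∑ i, (deriv (H i) z) ^ 2 = 0) ∧ (∀ i, (H i 0).im = 0) ∧
      ∀ z ∈ ball (0 : ℂ) 1, ∀ v : ℂ, ∀ i, (fderiv ℝ f z v) i = (deriv (H i) z * v).re := by
  obtain ⟨hC, hm, hconf, hharm⟩ := hf
  have hCi : ∀ i, ContDiffOn ℝ 2 (fun z => f z i) (ball (0 : ℂ) 1) := contDiffOn_euclidean.1 hC
  have hd : ∀ z ∈ ball (0 : ℂ) 1, DifferentiableAt ℝ f z := fun z hz =>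
    (hC.differentiableOn (by norm_num)).differentiableAt (isOpen_ball.mem_nhds hz)
  have hC1 : ContDiffOn ℝ 1 (fderiv ℝ f) (ball (0 : ℂ) 1) :=
    hC.fderiv_of_isOpen isOpen_ball (by norm_num)
  have hdv : ∀ z ∈ ball (0 : ℂ) 1, ∀ v : ℂ, DifferentiableAt ℝ (fun w => fderiv ℝ f w v) z := by
    intro z hz v
    have hD : DifferentiableAt ℝ (fderiv ℝ f) z :=
      (hC1.differentiableOn (by norm_num)).differentiableAt (isOpen_ball.mem_nhds hz)
    exact hD.clm_apply (differentiableAt_const v)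
  have hhi : ∀ i, ∀ z ∈ ball (0 : ℂ) 1,
      fderiv ℝ (fun w => fderiv ℝ (fun y => f y i) w 1) z 1
      + fderiv ℝ (fun w => fderiv ℝ (fun y => f y i) w I) z I = 0 := by
    intro i z hz
    have e : ∀ v : ℂ, (fun w => fderiv ℝ (fun y => f y i) w v) =ᶠ[𝓝 z]
        (fun w => (fderiv ℝ f w v) i) := by
      intro v
      filter_upwards [isOpen_ball.mem_nhds hz] with y hy
      rw [fderiv_coord (hd y hy)]
    rw [(e 1).fderiv_eq, (e I).fderiv_eq, ← fderiv_coord (hdv z hz 1), ← fderiv_coord (hdv z hz I),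
      ← PiLp.add_apply, hharm z hz]
    simp
  choose H hH hre him using fun i => exists_holo (hCi i) (hhi i)
  have hder : ∀ z ∈ ball (0 : ℂ) 1, ∀ v : ℂ, ∀ i,
      (fderiv ℝ f z v) i = (deriv (H i) z * v).re := by
    intro z hz v i
    rw [fderiv_coord (hd z hz), fderiv_re_apply (hH i) (hre i) hz]
  refine ⟨H, hH, hre, ?_, him, hder⟩
  intro z hz
  obtain ⟨c1, c2⟩ := hconf z hz
  have n1 : ‖fderiv ℝ f z 1‖ ^ 2 = ‖fderiv ℝ f z I‖ ^ 2 := by rw [c1]
  rw [EuclideanSpace.norm_sq_eq, EuclideanSpace.norm_sq_eq] at n1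
  simp only [hder z hz, Real.norm_eq_abs, sq_abs] at n1
  rw [PiLp.inner_apply] at c2
  simp only [hder z hz] at c2
  apply Complex.ext
  · rw [Complex.re_sum, Complex.zero_re]
    rw [← sub_eq_zero, ← Finset.sum_sub_distrib] at n1
    rw [← n1]
    refine Finset.sum_congr rfl fun i _ => ?_
    simp [pow_two]
  · rw [Complex.im_sum, Complex.zero_im]
    have : ∑ i, ((deriv (H i) z) ^ 2).im = (-2) * ∑ i, inner ℝ ((deriv (H i) z * 1).re)
        ((deriv (H i) z * I).re) := by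
      rw [Finset.mul_sum]
      refine Finset.sum_congr rfl fun i _ => ?_
      simp [pow_two]
      ring
    rw [this, c2, mul_zero]

end Pool.Agent.Lib.MP_a50f86_an.SC
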