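import Pool.Agent.Lib.MP_a50f86_an.SC.Dom

open Complex Metric Set Filter Topology InnerProductSpace

namespace Pool.Agent.Lib.MP_a50f86_an.SC

theorem inner_ev {n j : ℕ} (hj : j < n) (y : En n) : inner ℝ (ev n j) y = y ⟨j, hj⟩ := by
  rw [PiLp.inner_apply, Finset.sum_eq_single (⟨j, hj⟩ : Fin n)]
  · simp [ev_apply]
  · intro b _ hb
    have : (b : ℕ) ≠ j := fun h => hb (Fin.ext h)
    simp [ev_apply, this]
  · intro h
    exact absurd (Finset.mem_univ _) h

theorem inner_ev_zero {n : ℕ} {j : ℕ} (hj : j < 2) (y : En n)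
    (hy : ∀ i : Fin n, (i : ℕ) < 2 → y i = 0) : inner ℝ y (ev n j) = 0 := by
  rw [PiLp.inner_apply]
  refine Finset.sum_eq_zero fun i _ => ?_
  by_cases h : (i : ℕ) < 2
  · rw [hy i h]; simp
  · have : (i : ℕ) ≠ j := by omega
    simp [ev_apply, this]

/-- Two points with the same first two coordinates and the same norm are conjugate. -/
theorem exists_isometry {n : ℕ} {x y : En n} (hxy : ‖x‖ = ‖y‖)
    (h : ∀ i : Fin n, (i : ℕ) < 2 → x i = y i) :
    ∃ A : En n ≃ₗᵢ[ℝ] En n, A x = y ∧ A (ev n 0) = ev n 0 ∧ A (ev n 1) = ev n 1 := by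
  have hz : ∀ i : Fin n, (i : ℕ) < 2 → (x - y) i = 0 := by
    intro i hi
    rw [PiLp.sub_apply, h i hi, sub_self]
  refine ⟨Submodule.reflection (ℝ ∙ (x - y))ᗮ, Submodule.reflection_sub hxy, ?_, ?_⟩
  · apply Submodule.reflection_mem_subspace_eq_self
    rw [Submodule.mem_orthogonal_singleton_iff_inner_right]
    exact inner_ev_zero (by norm_num) _ hz
  · apply Submodule.reflection_mem_subspace_eq_self
    rw [Submodule.mem_orthogonal_singleton_iff_inner_right]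
    exact inner_ev_zero (by norm_num) _ hz

/-- The point with prescribed third coordinate `t`. -/
theorem exists_point {n : ℕ} (hn : 4 ≤ n) (w : En n) {t : ℝ}
    (ht : t ^ 2 ≤ ∑ i : Fin n, if (i : ℕ) < 2 then 0 else w i ^ 2) :
    ∃ y : En n, ‖w‖ = ‖y‖ ∧ (∀ i : Fin n, (i : ℕ) < 2 → w i = y i) ∧ y ⟨2, by omega⟩ = t := by
  obtain ⟨R, hR⟩ : ∃ R, R = ∑ i : Fin n, if (i : ℕ) < 2 then 0 else w i ^ 2 := ⟨_, rfl⟩
  rw [← hR] at ht
  obtain ⟨s, hs⟩ : ∃ s : ℝ, s ^ 2 = R - t ^ 2 := ⟨Real.sqrt (R - t ^ 2), Real.sq_sqrt (by linarith)⟩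
  set y : En n := WithLp.toLp 2 fun i => if (i : ℕ) < 2 then w i else
    if (i : ℕ) = 2 then t else if (i : ℕ) = 3 then s else 0 with hy
  have hyi : ∀ i : Fin n, y i = if (i : ℕ) < 2 then w i else
    if (i : ℕ) = 2 then t else if (i : ℕ) = 3 then s else 0 := fun i => rfl
  have hsplit : ∀ v : En n, ‖v‖ ^ 2 = ∑ i : Fin n, (if (i : ℕ) < 2 then v i ^ 2 else 0) +
      ∑ i : Fin n, (if (i : ℕ) < 2 then 0 else v i ^ 2) := by
    intro v
    rw [EuclideanSpace.norm_sq_eq, ← Finset.sum_add_distrib]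
    refine Finset.sum_congr rfl fun i _ => ?_
    by_cases hi : (i : ℕ) < 2
    · simp [hi]
    · simp [hi]
  have e1 : ∑ i : Fin n, (if (i : ℕ) < 2 then y i ^ 2 else 0) =
      ∑ i : Fin n, (if (i : ℕ) < 2 then w i ^ 2 else 0) := by
    refine Finset.sum_congr rfl fun i _ => ?_
    by_cases hi : (i : ℕ) < 2
    · rw [hyi]; simp [hi]
    · simp [hi]
  have e2 : ∑ i : Fin n, (if (i : ℕ) < 2 then 0 else y i ^ 2) = t ^ 2 + s ^ 2 := by
    have hne : (⟨2, by omega⟩ : Fin n) ≠ ⟨3, by omega⟩ := by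
      intro h
      have := congrArg (fun i : Fin n => (i : ℕ)) h
      simp at this
    rw [Finset.sum_eq_add (⟨2, by omega⟩ : Fin n) ⟨3, by omega⟩ hne]
    · simp [hyi]
    · intro c _ hc
      by_cases hi : (c : ℕ) < 2
      · simp [hi]
      · have h2 : (c : ℕ) ≠ 2 := fun h => hc.1 (Fin.ext h)
        have h3 : (c : ℕ) ≠ 3 := fun h => hc.2 (Fin.ext h)
        rw [hyi]
        simp [hi, h2, h3]
    · intro h; exact absurd (Finset.mem_univ _) h
    · intro h; exact absurd (Finset.mem_univ _) h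
  refine ⟨y, ?_, ?_, ?_⟩
  · have h2 : ‖w‖ ^ 2 = ‖y‖ ^ 2 := by
      rw [hsplit w, hsplit y, e1, e2, hs, ← hR]
      ring
    exact (sq_eq_sq₀ (norm_nonneg _) (norm_nonneg _)).1 h2
  · intro i hi
    rw [hyi]; simp [hi]
  · rw [hyi]; simp

/-- A set which contains all points conjugate to `w` is uncountable if `w` is not in the plane. -/
theorem not_countable_orbit {n : ℕ} (hn : 4 ≤ n) {w : En n} {i : Fin n} (hi : 2 ≤ (i : ℕ))
    (hw : w i ≠ 0) {S : Set (En n)}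
    (hS : ∀ y : En n, ‖w‖ = ‖y‖ → (∀ i : Fin n, (i : ℕ) < 2 → w i = y i) → y ∈ S) :
    ¬ S.Countable := by
  intro hc
  have hpos : 0 < ∑ i : Fin n, if (i : ℕ) < 2 then 0 else w i ^ 2 := by
    refine Finset.sum_pos' (fun j _ => ?_) ⟨i, Finset.mem_univ _, ?_⟩
    · by_cases hj : (j : ℕ) < 2
      · simp [hj]
      · simp only [hj, if_false]; positivity
    · rw [if_neg (by omega)]
      positivity
  obtain ⟨R, hR⟩ : ∃ R, R = ∑ i : Fin n, if (i : ℕ) < 2 then 0 else w i ^ 2 := ⟨_, rfl⟩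
  rw [← hR] at hpos
  have h1 : (Icc (0 : ℝ) (Real.sqrt R)) ⊆ (fun y : En n => y ⟨2, by omega⟩) '' S := by
    intro t ht
    have ht2 : t ^ 2 ≤ R := by
      have h := pow_le_pow_left₀ ht.1 ht.2 2
      rwa [Real.sq_sqrt hpos.le] at h
    obtain ⟨y, hy1, hy2, hy3⟩ := exists_point hn w (t := t) (by rw [← hR]; exact ht2)
    exact ⟨y, hS y hy1 hy2, hy3⟩
  have h2 : (Icc (0 : ℝ) (Real.sqrt R)).Countable := (hc.image _).mono h1
  rw [Cardinal.Real.Icc_countable_iff] at h2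
  have h3 : 0 < Real.sqrt R := Real.sqrt_pos.2 hpos
  linarith

end Pool.Agent.Lib.MP_a50f86_an.SC
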