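import Pool.Agent.Lib.MP_a50f86_an.SC.Enn

open Complex Metric Set Filter Topology InnerProductSpace

namespace Pool.Agent.Lib.MP_a50f86_an.SC

theorem CHn_enn {n : ℕ} (hn : 3 ≤ n) {Om : Set (En n)} {t : ℝ}
    (hm : ∀ z ∈ ball (0 : ℂ) 1, ennS n t z ∈ Om) :
    CHn Om (ennS n t) ∧ ennS n t 0 = 0 ∧ fderiv ℝ (ennS n t) 0 1 = t • ev n 0 ∧
      fderiv ℝ (ennS n t) 0 I = t • ev n 1 := by
  have h := CHn_of_holo (Om := Om) (f := ennS n t) (H := fun i => HE t (i : ℕ))
    (fun i z _ => (hasDerivAt_HE t i z).differentiableAt.differentiableWithinAt)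
    (fun i z _ => rfl) (fun z _ => iso_HE hn t z) hm
  obtain ⟨h1, h2⟩ := h
  refine ⟨h1, ?_, ?_, ?_⟩
  · ext i
    show (HE t (i : ℕ) 0).re = 0
    unfold HE
    split_ifs <;> simp
  · ext i
    rw [h2 0 (by simp) 1 i, (hasDerivAt_HE t i 0).deriv]
    have e : (t • ev n 0) i = t * (if (i : ℕ) = 0 then 1 else 0) := rfl
    rw [e]
    unfold HE'
    by_cases h0 : (i : ℕ) = 0
    · simp [h0]
    by_cases h1 : (i : ℕ) = 1
    · simp [h1]
    by_cases h2 : (i : ℕ) = 2
    · simp [h2]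
    · simp [h0, h1, h2]
  · ext i
    rw [h2 0 (by simp) I i, (hasDerivAt_HE t i 0).deriv]
    have e : (t • ev n 1) i = t * (if (i : ℕ) = 1 then 1 else 0) := rfl
    rw [e]
    unfold HE'
    by_cases h0 : (i : ℕ) = 0
    · simp [h0]
    by_cases h1 : (i : ℕ) = 1
    · simp [h1]
    by_cases h2 : (i : ℕ) = 2
    · simp [h2]
    · simp [h0, h1, h2]

/-- A planar conformal harmonic disc through the origin in a set whose intersection with the plane
lies in `c` times the domain `x ^ 4 + y ^ 4 ≤ 1` has size at most `c * sqrt 1.17`. -/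
theorem planar_bound {n : ℕ} {i0 i1 : Fin n} (h0 : (i0 : ℕ) = 0) (h1 : (i1 : ℕ) = 1)
    {Om : Set (En n)} {c : ℝ} (hc : 0 < c)
    (hsub : ∀ x ∈ Om, (x i0 / c) ^ 4 + (x i1 / c) ^ 4 ≤ 1) {f : ℂ → En n} {r : ℝ} (hr : 0 < r)
    (hf : CHn Om f) (hf0 : f 0 = 0) (hfx : fderiv ℝ f 0 1 = r • ev n 0)
    (hfy : fderiv ℝ f 0 I = r • ev n 1)
    (hpl : ∀ z ∈ ball (0 : ℂ) 1, ∀ i : Fin n, 2 ≤ (i : ℕ) → f z i = 0) :
    r ≤ c * Real.sqrt 1.17 := by
  have hmem0 : (0 : ℂ) ∈ ball (0 : ℂ) 1 := by simp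
  obtain ⟨H, hH, hre, hiso, him, hder⟩ := exists_holo_of_CHn hf
  have hzero : ∀ i : Fin n, 2 ≤ (i : ℕ) → ∀ z ∈ ball (0 : ℂ) 1, deriv (H i) z = 0 := by
    intro i hi z hz
    have e : ∀ v : ℂ, (deriv (H i) z * v).re = 0 := by
      intro v
      rw [← fderiv_re_apply (h := fun _ => (0 : ℝ)) (hH i)
        (fun w hw => by rw [hre i w hw, hpl w hw i hi]) hz v]
      simp
    have e1 := e 1
    have e2 := e I
    apply Complex.ext
    · simpa using e1
    · simpa using e2
  have hsq : ∀ z ∈ ball (0 : ℂ) 1, (deriv (H i0) z) ^ 2 + (deriv (H i1) z) ^ 2 = 0 := by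
    intro z hz
    rw [← hiso z hz]
    symm
    apply Finset.sum_eq_add i0 i1
    · intro h
      have := congrArg (fun i : Fin n => (i : ℕ)) h
      simp only [h0, h1] at this
      omega
    · intro j _ hj
      have hj2 : 2 ≤ (j : ℕ) := by
        by_contra hcon
        have : (j : ℕ) = 0 ∨ (j : ℕ) = 1 := by omega
        rcases this with h | h
        · exact hj.1 (Fin.ext (h.trans h0.symm))
        · exact hj.2 (Fin.ext (h.trans h1.symm))
      rw [hzero j hj2 z hz]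
      simp
    · intro h; exact absurd (Finset.mem_univ _) h
    · intro h; exact absurd (Finset.mem_univ _) h
  -- derivatives at the origin
  have a0 : deriv (H i0) 0 = r := by
    have e1 := hder 0 hmem0 1 i0
    have e2 := hder 0 hmem0 I i0
    rw [hfx] at e1
    rw [hfy] at e2
    apply Complex.ext
    · simp [ev_apply, h0] at e1
      simpa using e1.symm
    · simp [ev_apply, h0] at e2
      simpa using e2
  have a1 : deriv (H i1) 0 = - (r * I) := by
    have e1 := hder 0 hmem0 1 i1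
    have e2 := hder 0 hmem0 I i1
    rw [hfx] at e1
    rw [hfy] at e2
    apply Complex.ext
    · simp [ev_apply, h1] at e1
      simpa using e1.symm
    · simp [ev_apply, h1] at e2
      simp
      linarith
  set A : ℂ → ℂ := fun z => deriv (H i0) z - I * deriv (H i1) z with hA
  set B : ℂ → ℂ := fun z => deriv (H i0) z + I * deriv (H i1) z with hB
  have hd0 : DifferentiableOn ℂ (deriv (H i0)) (ball (0 : ℂ) 1) := (hH i0).deriv isOpen_ball
  have hd1 : DifferentiableOn ℂ (deriv (H i1)) (ball (0 : ℂ) 1) := (hH i1).deriv isOpen_ball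
  have hAn : AnalyticOnNhd ℂ A (ball (0 : ℂ) 1) :=
    (hd0.sub (hd1.const_mul I)).analyticOnNhd isOpen_ball
  have hBn : AnalyticOnNhd ℂ B (ball (0 : ℂ) 1) :=
    (hd0.add (hd1.const_mul I)).analyticOnNhd isOpen_ball
  have hprod : ∀ z ∈ ball (0 : ℂ) 1, A z * B z = 0 := by
    intro z hz
    simp only [hA, hB]
    linear_combination hsq z hz - (deriv (H i1) z) ^ 2 * I_sq
  have hpre : IsPreconnected (ball (0 : ℂ) 1) := (convex_ball (0 : ℂ) 1).isPreconnected
  have hA0 : ∀ z ∈ ball (0 : ℂ) 1, A z = 0 := by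
    rcases hAn.eq_zero_or_eq_zero_of_mul_eq_zero hBn hprod hpre with h | h
    · exact h
    · exfalso
      have := h 0 hmem0
      simp only [hB, a0, a1] at this
      have h2 : (r : ℂ) + I * (-(r * I)) = 2 * r := by
        linear_combination (-(r : ℂ)) * I_mul_I
      rw [h2] at this
      have : (r : ℂ) = 0 := by simpa using this
      exact hr.ne' (by exact_mod_cast this)
  have hH0 : ∀ i, H i 0 = 0 := by
    intro i
    apply Complex.ext
    · rw [hre i 0 hmem0, hf0]; simp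
    · rw [him i]; simp
  have hrel : ∀ z ∈ ball (0 : ℂ) 1, H i1 z + I * H i0 z = 0 := by
    intro z hz
    have hd : DifferentiableOn ℂ (fun w => H i1 w + I * H i0 w) (ball (0 : ℂ) 1) :=
      (hH i1).add ((hH i0).const_mul I)
    have hdz : (ball (0 : ℂ) 1).EqOn (deriv (fun w => H i1 w + I * H i0 w)) 0 := by
      intro w hw
      have e0 := ((hH i0).differentiableAt (isOpen_ball.mem_nhds hw)).hasDerivAt
      have e1 := ((hH i1).differentiableAt (isOpen_ball.mem_nhds hw)).hasDerivAt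
      have e2 := e1.add (e0.const_mul I)
      have e3 : HasDerivAt (fun w => H i1 w + I * H i0 w) _ w := e2
      rw [e3.deriv]
      have e4 := hA0 w hw
      simp only [hA] at e4
      show deriv (H i1) w + I * deriv (H i0) w = 0
      linear_combination I * e4 + deriv (H i1) w * I_mul_I
    have := isOpen_ball.is_const_of_deriv_eq_zero hpre hd hdz hz hmem0
    simp only [hH0] at this
    simpa using this
  have hre0 : ∀ z ∈ ball (0 : ℂ) 1, (H i0 z).re = f z i0 := hre i0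
  have him0 : ∀ z ∈ ball (0 : ℂ) 1, (H i0 z).im = f z i1 := by
    intro z hz
    have e := congrArg Complex.re (hrel z hz)
    simp at e
    rw [← hre i1 z hz]
    linarith
  -- the Schwarz lemma
  have hcC : (c : ℂ) ≠ 0 := by exact_mod_cast hc.ne'
  set G : ℂ → ℂ := fun z => H i0 z / c + (H i0 z / c) ^ 5 / 16 with hG
  have hGd : DifferentiableOn ℂ G (ball (0 : ℂ) 1) :=
    ((hH i0).div_const _).add ((((hH i0).div_const _).pow 5).div_const 16)
  have hG0 : G 0 = 0 := by simp [hG, hH0]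
  have hGder : deriv G 0 = r / c := by
    have hd := ((hH i0).differentiableAt (isOpen_ball.mem_nhds hmem0)).hasDerivAt
    rw [a0] at hd
    have h := (hd.div_const (c : ℂ)).add (((hd.div_const (c : ℂ)).pow 5).div_const 16)
    have h' : HasDerivAt G _ 0 := h
    rw [h'.deriv, hH0]
    simp
  have hmaps : MapsTo G (ball (0 : ℂ) 1) (closedBall (G 0) (Real.sqrt 1.17)) := by
    intro z hz
    rw [hG0, mem_closedBall_zero_iff]
    apply Real.le_sqrt_of_sq_le
    apply psi_bound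
    have e1 : (H i0 z / c).re = f z i0 / c := by
      rw [Complex.div_ofReal_re, hre0 z hz]
    have e2 : (H i0 z / c).im = f z i1 / c := by
      rw [Complex.div_ofReal_im, him0 z hz]
    rw [e1, e2]
    exact hsub _ (hf.2.1 z hz)
  have hS := Complex.norm_deriv_le_div_of_mapsTo_ball hGd hmaps one_pos
  rw [hGder, div_one] at hS
  have e3 : ‖(r : ℂ) / c‖ = r / c := by
    rw [norm_div, Complex.norm_real, Complex.norm_real, Real.norm_eq_abs, Real.norm_eq_abs,
      abs_of_pos hr, abs_of_pos hc]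
  rw [e3, div_le_iff₀ hc] at hS
  linarith

/-- Every extremal disc leaves the plane of the frame. -/
theorem leaves_plane {n : ℕ} (hn : 3 ≤ n) {Om : Set (En n)} {ε : ℝ} (he0 : 0 ≤ ε)
    (he : ε ≤ 1 / 2000) (hsub1 : ∀ x ∈ OmS n, (1 - ε) • x ∈ Om)
    (hsub2 : ∀ x ∈ Om, ∃ y ∈ OmS n, x = (1 + ε) • y) {f : ℂ → En n} {r : ℝ} (hr : 0 < r)
    (hf : CHn Om f) (hf0 : f 0 = 0) (hfx : fderiv ℝ f 0 1 = r • ev n 0)
    (hfy : fderiv ℝ f 0 I = r • ev n 1)
    (hmax : ∀ g : ℂ → En n, ∀ s : ℝ, 0 < s → CHn Om g → g 0 = 0 →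
      fderiv ℝ g 0 1 = s • ev n 0 → fderiv ℝ g 0 I = s • ev n 1 → s ≤ r) :
    ∃ z ∈ ball (0 : ℂ) 1, ∃ i : Fin n, 2 ≤ (i : ℕ) ∧ f z i ≠ 0 := by
  by_contra hcon
  push Not at hcon
  have h1 : r ≤ (1 + ε) * Real.sqrt 1.17 := by
    refine planar_bound (i0 := ⟨0, by omega⟩) (i1 := ⟨1, by omega⟩) rfl rfl (by linarith) ?_ hr hf
      hf0 hfx hfy hcon
    intro x hx
    obtain ⟨y, hy, rfl⟩ := hsub2 x hx
    have hc : (1 + ε) ≠ 0 := by linarith
    have e : ∀ i : Fin n, ((1 + ε) • y) i / (1 + ε) = y i := by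
      intro i
      rw [PiLp.smul_apply, smul_eq_mul]
      field_simp
    rw [e, e]
    have hy' : rhoS y < 0 := hy
    have hpos : 0 ≤ (∑ i : Fin n, if (i : ℕ) < 2 then 0 else y i ^ 2) ^ 2 / 16 := by positivity
    have hpos2 : 0 ≤ (∑ i : Fin n, y i ^ 2) / 200 := by positivity
    have hle : y ⟨0, by omega⟩ ^ 4 + y ⟨1, by omega⟩ ^ 4 ≤
        ∑ i : Fin n, if (i : ℕ) < 2 then y i ^ 4 else 0 := by
      have hne : (⟨0, by omega⟩ : Fin n) ≠ ⟨1, by omega⟩ := by
        intro h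
        have := congrArg (fun i : Fin n => (i : ℕ)) h
        simp at this
      have hsum : ∑ i ∈ ({⟨0, by omega⟩, ⟨1, by omega⟩} : Finset (Fin n)),
          (if (i : ℕ) < 2 then y i ^ 4 else 0) = y ⟨0, by omega⟩ ^ 4 + y ⟨1, by omega⟩ ^ 4 := by
        rw [Finset.sum_pair hne]
        simp
      rw [← hsum]
      apply Finset.sum_le_sum_of_subset_of_nonneg (Finset.subset_univ _)
      intro i _ _
      by_cases hi : (i : ℕ) < 2
      · simp only [hi, if_true]; positivity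
      · simp [hi]
    unfold rhoS at hy'
    linarith
  have h2 : (1 - ε) * (13 / 12) ≤ r := by
    have hm : ∀ z ∈ ball (0 : ℂ) 1, ennS n ((1 - ε) * (13 / 12)) z ∈ Om := by
      intro z hz
      rw [ennS_smul]
      exact hsub1 _ (ennS_mem hn hz)
    obtain ⟨g1, g2, g3, g4⟩ := CHn_enn hn hm
    exact hmax _ _ (by nlinarith) g1 g2 g3 g4
  have h3 : (1 - ε) * (13 / 12) ≤ (1 + ε) * Real.sqrt 1.17 := h2.trans h1
  have hs : Real.sqrt 1.17 ≤ 1.0817 := by
    rw [Real.sqrt_le_left (by norm_num)]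
    norm_num
  nlinarith [Real.sqrt_nonneg 1.17]

/-- Composition with linear isometries. -/
theorem CHn_isometry {n : ℕ} {Om : Set (En n)} (A : En n ≃ₗᵢ[ℝ] En n) (hA : ∀ x ∈ Om, A x ∈ Om)
    {f : ℂ → En n} (hf : CHn Om f) : CHn Om (fun w => A (f w)) := by
  have hfd : ∀ z v : ℂ, fderiv ℝ (fun w => A (f w)) z v = A (fderiv ℝ f z v) := by
    intro z v
    have h : fderiv ℝ (A ∘ f) z = (A : En n →L[ℝ] En n).comp (fderiv ℝ f z) := A.comp_fderiv
    have h2 : fderiv ℝ (fun w => A (f w)) z = (A : En n →L[ℝ] En n).comp (fderiv ℝ f z) := h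
    rw [h2]
    rfl
  have hfd2 : ∀ (g : ℂ → En n) (z v : ℂ), fderiv ℝ (fun w => A (g w)) z v = A (fderiv ℝ g z v) := by
    intro g z v
    have h : fderiv ℝ (A ∘ g) z = (A : En n →L[ℝ] En n).comp (fderiv ℝ g z) := A.comp_fderiv
    have h2 : fderiv ℝ (fun w => A (g w)) z = (A : En n →L[ℝ] En n).comp (fderiv ℝ g z) := h
    rw [h2]
    rfl
  obtain ⟨h1, h2, h3, h4⟩ := hf
  refine ⟨A.contDiff.comp_contDiffOn h1, fun z hz => hA _ (h2 z hz), fun z hz => ?_,
    fun z hz => ?_⟩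
  · rw [hfd, hfd, A.norm_map, A.norm_map, A.inner_map_map]
    exact h3 z hz
  · simp only [hfd]
    rw [hfd2, hfd2, ← map_add, h4 z hz, map_zero]

end Pool.Agent.Lib.MP_a50f86_an.SC
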